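import Pool.Agent.Helper599_WA.Names

/-!
# Names for embeddings of wide Aronszajn trees (MP_d2308b_lc)

Let `κ` be an infinite (for instance a singular) cardinal, `T` a wide `κ⁺`-Aronszajn tree and `Q` a
poset whose square satisfies the `κ⁺`-chain condition.  For every family of candidates for `Q`-names
of maps into `T`, with only `κ⁺` restrictions to every proper initial segment of `κ⁺`, there is a
wide `κ⁺`-Aronszajn tree `S` such that no member of the family names a strictly increasing map from
`S` to `T`.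
-/

universe u

open Cardinal

namespace Pool.Agent.Results.MP_d2308b_lc.Names

open Pool.Agent.Helper599

theorem result (κ : Cardinal.{u}) (hκ : ℵ₀ ≤ κ) (T : Type u) [PartialOrder T]
    (hT : IsWideAronszajn (Order.succ κ) T) (Q : Type u) [Preorder Q]
    (hQ : ChainCondition κ (Q × Q))
    (𝒢 : Set ((Order.succ κ).ord.ToType → Q × T))
    (hfew : ∀ δ : (Order.succ κ).ord.ToType,
      #((fun (G : (Order.succ κ).ord.ToType → Q × T) (a : Set.Iio δ) => G a) '' 𝒢) ≤
        Order.succ κ) :
    ∃ (S : Type u) (_ : PartialOrder S) (c : S → (Order.succ κ).ord.ToType),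
      IsWideAronszajn (Order.succ κ) S ∧ Function.Injective c ∧
      ∀ G ∈ 𝒢, ∃ s s' : S, s < s' ∧ Compat (G (c s)).1 (G (c s')).1 ∧
        ¬ (G (c s)).2 < (G (c s')).2 := by
  have H := lam_succLike hκ
  rcases isEmpty_or_nonempty Q with hE | ⟨⟨q0⟩⟩
  · obtain ⟨i⟩ : Nonempty (T ↪ (Order.succ κ).ord.ToType) :=
      (hT.2.2.1.trans (mk_lam κ).symm).le
    exact ⟨T, inferInstance, i, hT, i.injective, fun G _ => hE.elim (G H.ne.some).1⟩
  · obtain ⟨S, hS, c, h1, h2, h3⟩ := exists_not_named hκ T hT.1.1.choose hT.1.treeLike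
      hT.noChain Q q0 hQ 𝒢 hfew
    refine ⟨S, hS, c, h1, h2, fun G hG => ?_⟩
    have h4 := h3 G hG
    push Not at h4
    exact h4

end Pool.Agent.Results.MP_d2308b_lc.Names
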