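import Pool.Agent.Helper599_WA.Main

/-!
# Maximal wide Aronszajn trees and slaloms (MP_d2308b_lc)

Let `κ` be an infinite (for instance a singular) cardinal.  If there is a maximal wide
`κ⁺`-Aronszajn tree `T`, then embeddings of wide `κ⁺`-Aronszajn trees into `T` cannot be guessed
by slaloms of width smaller than `κ` which are the branches of a tree with only `κ⁺` nodes.
-/

universe u

open Cardinal

namespace Pool.Agent.Results.MP_d2308b_lc.Slaloms

open Pool.Agent.Helper599

theorem result (κ : Cardinal.{u}) (hκ : ℵ₀ ≤ κ) (T : Type u) [PartialOrder T]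
    (hT : IsMaximalWideAronszajn (Order.succ κ) T)
    (I : Type u) (hI : #I ≤ κ)
    (𝒢 : Set ((Order.succ κ).ord.ToType → I → Set T))
    (hsmall : ∀ G ∈ 𝒢, ∀ (a : (Order.succ κ).ord.ToType) (ξ : I), #(G a ξ) < κ)
    (hfew : ∀ δ : (Order.succ κ).ord.ToType,
      #((fun (G : (Order.succ κ).ord.ToType → I → Set T) (a : Set.Iio δ) => G a) '' 𝒢) ≤
        Order.succ κ) :
    ∃ (S : Type u) (_ : PartialOrder S) (c : S → (Order.succ κ).ord.ToType) (f : S → T),
      IsWideAronszajn (Order.succ κ) S ∧ Function.Injective c ∧ IsTreeEmbedding f ∧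
      ∀ G ∈ 𝒢, ¬ Captures c G := by
  have hW := hT.1
  have hTL := hW.1.treeLike
  obtain ⟨S, hS, c, h1, h2, h3⟩ := exists_not_captured hκ T hW.1.1.choose
    (fun X => #X < κ) (noNarrow_card (lam_succLike hκ) hTL hW.noChain) I hI 𝒢 hsmall hfew
  obtain ⟨f, hf⟩ := hT.2 S h1
  exact ⟨S, hS, c, f, h1, h2, hf, h3⟩

end Pool.Agent.Results.MP_d2308b_lc.Slaloms
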