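import Pool.Agent.Helper599_WA.LexProd

/-!
# Weak and strong universality of wide Aronszajn trees (MP_d2308b_lc)

For every infinite (for instance singular) cardinal `κ`: there is a maximal wide `κ⁺`-Aronszajn
tree if and only if some family of at most `κ⁺` wide `κ⁺`-Aronszajn trees is universal with respect
to strictly increasing maps which need not be injective.
-/

universe u

open Cardinal

namespace Pool.Agent.Results.MP_d2308b_lc.WeakToStrong

open Pool.Agent.Helper599

theorem result (κ : Cardinal.{u}) (hκ : ℵ₀ ≤ κ) :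
    (∃ (T : Type u) (_ : PartialOrder T), IsMaximalWideAronszajn (Order.succ κ) T) ↔
      ∃ (J : Type u) (F : J → Type u) (_ : ∀ j, PartialOrder (F j)),
        #J ≤ Order.succ κ ∧ (∀ j, IsWideAronszajn (Order.succ κ) (F j)) ∧
        ∀ (S : Type u) [PartialOrder S], IsWideAronszajn (Order.succ κ) S →
          ∃ (j : J) (f : S → F j), ∀ s s' : S, s < s' → f s < f s' := by
  constructor
  · rintro ⟨T, hT, h1, h2⟩
    refine ⟨PUnit, fun _ => T, fun _ => hT, ?_, fun _ => h1, fun S _ hS => ?_⟩
    · rw [mk_punit]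
      exact one_le_aleph0.trans (hκ.trans (Order.le_succ κ))
    · obtain ⟨f, -, hf⟩ := h2 S hS
      exact ⟨PUnit.unit, f, hf⟩
  · rintro ⟨J, F, hF0, hJ, hF, huniv⟩
    refine exMaximal hκ J hJ F hF (fun S _ hS => ?_)
    obtain ⟨j, f, hf⟩ := huniv S hS
    exact ⟨j, f, fun s s' h => hf s s' h⟩

end Pool.Agent.Results.MP_d2308b_lc.WeakToStrong
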